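import Pool.Agent.Helper65.LinSpace.Prog

/-!
# Compiling functions of the second Grzegorczyk class to counter programs
-/

namespace Pool.Agent.Helper9.LinSpace

open Pool.Agent.Helper65.LinSpace

theorem pow_add_two_le (m a : ℕ) : (m + 2) ^ (a + 1) + 2 ≤ (m + 2) ^ (a + 2) := by
  have h1 : (m + 2) ^ (a + 2) = (m + 2) * (m + 2) ^ (a + 1) := by ring
  have h2 : 2 ≤ (m + 2) ^ (a + 1) := by
    calc 2 ≤ m + 2 := by omega
      _ = (m + 2) ^ 1 := (pow_one _).symm
      _ ≤ (m + 2) ^ (a + 1) := Nat.pow_le_pow_right (by omega) (by omega)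
  rw [h1]
  nlinarith [Nat.zero_le m]

theorem pow_mono' {m a b : ℕ} (h : a ≤ b) : (m + 2) ^ a ≤ (m + 2) ^ b :=
  Nat.pow_le_pow_right (by omega) h

theorem le_pow' (m a : ℕ) : m ≤ (m + 2) ^ (a + 1) := by
  calc m ≤ (m + 2) ^ 1 := by simp
    _ ≤ (m + 2) ^ (a + 1) := pow_mono' (by omega)

theorem pow_bound (m a c : ℕ) : ((m + 2) ^ (a + 1) + 2) ^ c ≤ (m + 2) ^ ((a + 2) * c) := by
  calc ((m + 2) ^ (a + 1) + 2) ^ c ≤ ((m + 2) ^ (a + 2)) ^ c :=
        Nat.pow_le_pow_left (pow_add_two_le m a) c
    _ = (m + 2) ^ ((a + 2) * c) := by rw [← pow_mul]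

/-- Polynomial growth of functions in the second Grzegorczyk class. -/
theorem growth {F : (ℕ → ℕ) → ℕ} (hF : E2 F) :
    ∃ c : ℕ, ∀ (e : ℕ → ℕ) (m : ℕ), (∀ i, e i ≤ m) → F e ≤ (m + 2) ^ c := by
  induction hF with
  | var i => exact ⟨1, fun e m h => by rw [pow_one]; exact (h i).trans (by omega)⟩
  | zero => exact ⟨0, fun e m h => by simp⟩
  | succ hF ih =>
    obtain ⟨c, hc⟩ := ih
    refine ⟨c + 1, fun e m h => ?_⟩
    have h1 := hc e m h
    have h2 : 1 ≤ (m + 2) ^ c := Nat.one_le_pow _ _ (by omega)
    have h3 : (m + 2) ^ (c + 1) = (m + 2) * (m + 2) ^ c := by ring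
    rw [h3]
    nlinarith [Nat.zero_le m]
  | mul hF hG ihF ihG =>
    obtain ⟨c, hc⟩ := ihF
    obtain ⟨d, hd⟩ := ihG
    refine ⟨c + d, fun e m h => ?_⟩
    rw [pow_add]
    exact Nat.mul_le_mul (hc e m h) (hd e m h)
  | @bind F G hG hF ihG ihF =>
    obtain ⟨c, hc⟩ := ihG
    obtain ⟨d, hd⟩ := ihF
    refine ⟨(c + 2) * d, fun e m h => ?_⟩
    have h1 : ∀ i, cons (G e) e i ≤ (m + 2) ^ (c + 1) := by
      intro i
      cases i with
      | zero => exact (hc e m h).trans (pow_mono' (by omega))
      | succ i => exact (h i).trans (le_pow' m c)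
    exact (hd _ _ h1).trans (pow_bound m c d)
  | ren σ hF ih =>
    obtain ⟨c, hc⟩ := ih
    exact ⟨c, fun e m h => hc _ m (fun i => h (σ i))⟩
  | @prec G H N C hG hH hN hC hb ihG ihH ihN ihC =>
    obtain ⟨c, hc⟩ := ihC
    exact ⟨c, fun e m h => (hb e (N e) le_rfl).trans (hc e m h)⟩

/-! ### Gadgets -/

theorem run_loop {B : ℕ} {p : Prog} {i : ℕ} (n : ℕ) : ∀ S : ℕ → (ℕ → ℕ),
    (∀ k ≤ n, S k i = n - k) →
    (∀ k < n, Run B p (Function.update (S k) i (n - k - 1)) (S (k + 1))) →
    Run B (.loop i p) (S 0) (S n) := by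
  induction n with
  | zero => intro S h _; exact Run.loop_zero (by simpa using h 0 le_rfl)
  | succ n ih =>
    intro S h hs
    have h0 : S 0 i = n + 1 := by simpa using h 0 (by omega)
    refine Run.loop_succ (s₂ := S 1) (by omega) ?_ ?_
    · have := hs 0 (by omega)
      rw [h0]
      simpa using this
    · refine ih (fun k => S (k + 1)) ?_ ?_
      · intro k hk
        have := h (k + 1) (by omega)
        rw [this]; omega
      · intro k hk
        have := hs (k + 1) (by omega)
        have e : n + 1 - (k + 1) - 1 = n - k - 1 := by omega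
        rw [e] at this
        exact this

theorem Run.of_eq {B : ℕ} {p : Prog} {s s' t t' : ℕ → ℕ} (h : Run B p s s') (h1 : s = t)
    (h2 : s' = t') : Run B p t t' := by subst h1; subst h2; exact h

/-- move the content of `i` to `a` (adding it) -/
theorem run_addTo {B i a : ℕ} (hia : i ≠ a) (s : ℕ → ℕ) (hB : s a + s i ≤ B) :
    Run B (.loop i (.inc a)) s
      (Function.update (Function.update s i 0) a (s a + s i)) := by
  have key := run_loop (B := B) (p := .inc a) (i := i) (s i)
    (fun k => Function.update (Function.update s i (s i - k)) a (s a + k)) ?_ ?_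
  · refine Run.of_eq key ?_ ?_
    · funext x
      simp only [Function.update_apply]
      split_ifs <;> simp_all
    · funext x
      simp only [Function.update_apply]
      split_ifs <;> simp_all
  · intro k hk
    simp [hia]
  · intro k hk
    refine Run.of_eq (Run.inc a _ ?_) rfl ?_
    · simp [hia.symm]
      omega
    · funext x
      simp only [Function.update_apply]
      split_ifs <;> simp_all <;> omega

/-- set the counter `i` to zero -/
theorem run_clear {B i : ℕ} (s : ℕ → ℕ) :
    Run B (.loop i .skip) s (Function.update s i 0) := by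
  have key := run_loop (B := B) (p := .skip) (i := i) (s i)
    (fun k => Function.update s i (s i - k)) ?_ ?_
  · refine Run.of_eq key ?_ ?_
    · funext x
      simp only [Function.update_apply]
      split_ifs <;> simp_all
    · funext x
      simp only [Function.update_apply]
      split_ifs <;> simp_all
  · intro k hk
    simp
  · intro k hk
    refine Run.of_eq (Run.skip _) rfl ?_
    funext x
    simp only [Function.update_apply]
    split_ifs <;> omega

/-- add the content of `i` to `a`, using the scratch counter `b` (which is zero) -/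
def copyAdd (i a b : ℕ) : Prog := .seq (.loop i (.seq (.inc a) (.inc b))) (.loop b (.inc i))

theorem run_copyAdd {B i a b : ℕ} (hia : i ≠ a) (hib : i ≠ b) (hab : a ≠ b) (s : ℕ → ℕ)
    (hb : s b = 0) (hB : s a + s i ≤ B) (hB' : s i ≤ B) :
    Run B (copyAdd i a b) s (Function.update s a (s a + s i)) := by
  have key := run_loop (B := B) (p := .seq (.inc a) (.inc b)) (i := i) (s i)
    (fun k => Function.update (Function.update (Function.update s i (s i - k)) a (s a + k)) b k)
    ?_ ?_
  · refine Run.seq (Run.of_eq key ?_ rfl) ?_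
    · funext x
      simp only [Function.update_apply]
      split_ifs <;> simp_all
    · refine Run.of_eq (run_addTo (B := B) (i := b) (a := i) hib.symm _ ?_) rfl ?_
      · simp [hia, hib]
        exact hB'
      · funext x
        simp only [Function.update_apply]
        split_ifs <;> simp_all
  · intro k hk
    simp [hia, hib]
  · intro k hk
    refine Run.seq (Run.inc a _ ?_) (Run.of_eq (Run.inc b _ ?_) rfl ?_)
    · simp [hia.symm, hab]
      omega
    · simp [Function.update_apply, hib.symm, hab.symm]
      omega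
    · funext x
      simp only [Function.update_apply]
      split_ifs <;> simp_all <;> omega

/-- a state that is `s` except at `j`, `j+1`, `j+2` -/
def st3 (s : ℕ → ℕ) (j a b c : ℕ) : ℕ → ℕ := fun x =>
  if x = j then a else if x = j + 1 then b else if x = j + 2 then c else s x

section st3
variable (s : ℕ → ℕ) (j a b c : ℕ)

theorem st3_j : st3 s j a b c j = a := by simp [st3]

theorem st3_j1 : st3 s j a b c (j + 1) = b := by simp [st3]

theorem st3_j2 : st3 s j a b c (j + 2) = c := by simp [st3]

theorem st3_lt {x : ℕ} (h : x < j) : st3 s j a b c x = s x := by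
  unfold st3
  rw [if_neg (by omega), if_neg (by omega), if_neg (by omega)]

theorem st3_gt {x : ℕ} (h : j + 2 < x) : st3 s j a b c x = s x := by
  unfold st3
  rw [if_neg (by omega), if_neg (by omega), if_neg (by omega)]

theorem up_j (v : ℕ) : Function.update (st3 s j a b c) j v = st3 s j v b c := by
  funext x
  unfold st3
  rw [Function.update_apply]
  split_ifs <;> rfl

theorem up_j1 (v : ℕ) : Function.update (st3 s j a b c) (j + 1) v = st3 s j a v c := by
  funext x
  unfold st3
  rw [Function.update_apply]
  split_ifs <;> first | rfl | omega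

theorem up_j2 (v : ℕ) : Function.update (st3 s j a b c) (j + 2) v = st3 s j a b v := by
  funext x
  unfold st3
  rw [Function.update_apply]
  split_ifs <;> first | rfl | omega

theorem up_eq (h0 : ∀ i, j ≤ i → s i = 0) : Function.update s j a = st3 s j a 0 0 := by
  funext x
  unfold st3
  rw [Function.update_apply]
  have h1 := h0 (j + 1) (by omega)
  have h2 := h0 (j + 2) (by omega)
  split_ifs with q1 q2 q3
  · rfl
  · rw [q2]; exact h1
  · rw [q3]; exact h2
  · rfl

theorem up_j3 (h3 : s (j + 3) = 0) : Function.update (st3 s j a b c) (j + 3) 0 = st3 s j a b c := by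
  rw [← h3, ← st3_gt s j a b c (x := j + 3) (by omega), Function.update_eq_self]

end st3

theorem E2.prog {F : (ℕ → ℕ) → ℕ} (hF : E2 F) : ∃ c : ℕ, ∀ (ρ : ℕ → ℕ) (j : ℕ), (∀ i, ρ i < j) →
    ∃ P : Prog, ∀ (s : ℕ → ℕ) (B m : ℕ), (∀ i, j ≤ i → s i = 0) → (∀ i, s (ρ i) ≤ m) →
      (m + 2) ^ c ≤ B → Run B P s (Function.update s j (F (fun i => s (ρ i)))) := by
  induction hF with
  | var i₀ =>
    refine ⟨1, fun ρ j hρ => ⟨copyAdd (ρ i₀) j (j + 1), fun s B m h0 hm hB => ?_⟩⟩
    have h1 := hρ i₀
    have h2 := hm i₀
    have h3 := h0 j le_rfl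
    have h4 := h0 (j + 1) (by omega)
    rw [pow_one] at hB
    refine Run.of_eq (run_copyAdd (by omega) (by omega) (by omega) s h4 (by omega) (by omega))
      rfl ?_
    rw [h3, zero_add]
  | zero =>
    refine ⟨0, fun ρ j hρ => ⟨.skip, fun s B m h0 hm hB => ?_⟩⟩
    refine Run.of_eq (Run.skip s) rfl ?_
    rw [← h0 j le_rfl, Function.update_eq_self]
  | @succ F hF ih =>
    obtain ⟨c, hc⟩ := ih
    obtain ⟨g, hg⟩ := growth hF
    refine ⟨c + g + 1, fun ρ j hρ => ?_⟩
    obtain ⟨P, hP⟩ := hc ρ j hρ
    refine ⟨.seq P (.inc j), fun s B m h0 hm hB => ?_⟩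
    have e1 : F (fun i => s (ρ i)) ≤ (m + 2) ^ g := hg _ m hm
    have e2 : (m + 2) ^ g + 2 ≤ B + 1 := by
      have : (m + 2) ^ (g + 1) ≤ B := (pow_mono' (by omega)).trans hB
      have h3 : (m + 2) ^ (g + 1) = (m + 2) * (m + 2) ^ g := by ring
      have h4 : 1 ≤ (m + 2) ^ g := Nat.one_le_pow _ _ (by omega)
      nlinarith [Nat.zero_le m]
    refine Run.seq (hP s B m h0 hm ((pow_mono' (by omega)).trans hB))
      (Run.of_eq (Run.inc j _ ?_) rfl ?_)
    · rw [Function.update_self]; omega
    · rw [Function.update_idem, Function.update_self]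
  | @mul F G hF hG ihF ihG =>
    obtain ⟨c, hc⟩ := ihF
    obtain ⟨d, hd⟩ := ihG
    obtain ⟨g, hg⟩ := growth hF
    obtain ⟨g', hg'⟩ := growth hG
    refine ⟨c + d + g + g', fun ρ j hρ => ?_⟩
    obtain ⟨P, hP⟩ := hc ρ j hρ
    obtain ⟨Q, hQ⟩ := hd ρ (j + 1) (fun i => (hρ i).trans (by omega))
    refine ⟨.seq P (.seq Q (.seq (.loop j (copyAdd (j + 1) (j + 2) (j + 3)))
      (.seq (.loop (j + 1) .skip) (.loop (j + 2) (.inc j))))), fun s B m h0 hm hB => ?_⟩
    show Run B _ s (Function.update s j (F (fun i => s (ρ i)) * G (fun i => s (ρ i))))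
    have e1 := hg _ m hm
    have e2 := hg' _ m hm
    have r1 := hP s B m h0 hm ((pow_mono' (by omega)).trans hB)
    generalize hf : F (fun i => s (ρ i)) = f at e1 r1 ⊢
    generalize ha : G (fun i => s (ρ i)) = a at e2 ⊢
    have e3 : f * a ≤ B := by
      calc f * a ≤ (m + 2) ^ g * (m + 2) ^ g' := Nat.mul_le_mul e1 e2
        _ = (m + 2) ^ (g + g') := (pow_add _ _ _).symm
        _ ≤ B := (pow_mono' (by omega)).trans hB
    have e4 : a ≤ B := e2.trans ((pow_mono' (by omega)).trans hB)
    have hs1 : (fun i => st3 s j f 0 0 (ρ i)) = fun i => s (ρ i) := by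
      funext i
      exact st3_lt _ _ _ _ _ (hρ i)
    rw [up_eq _ _ _ h0] at r1 ⊢
    have r2 : Run B Q (st3 s j f 0 0) (st3 s j f a 0) := by
      have := hQ (st3 s j f 0 0) B m ?_ ?_ ((pow_mono' (by omega)).trans hB)
      · rw [hs1, ha, up_j1] at this
        exact this
      · intro i hi
        unfold st3
        have := h0 i (by omega)
        split_ifs <;> first | rfl | omega
      · intro i
        rw [st3_lt _ _ _ _ _ (hρ i)]
        exact hm i
    have r3 : Run B (.loop j (copyAdd (j + 1) (j + 2) (j + 3))) (st3 s j f a 0)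
        (st3 s j 0 a (f * a)) := by
      have key := run_loop (B := B) (p := copyAdd (j + 1) (j + 2) (j + 3)) (i := j) f
        (fun k => st3 s j (f - k) a (k * a)) ?_ ?_
      · simpa using key
      · intro k hk
        exact st3_j _ _ _ _ _
      · intro k hk
        simp only [up_j]
        have h3 := h0 (j + 3) (by omega)
        have e5 : k * a + a ≤ f * a := by
          have : (k + 1) * a ≤ f * a := Nat.mul_le_mul_right a hk
          linarith [add_mul k 1 a]
        have := run_copyAdd (B := B) (i := j + 1) (a := j + 2) (b := j + 3) (by omega) (by omega)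
          (by omega) (st3 s j (f - k - 1) a (k * a))
          (by rw [st3_gt _ _ _ _ _ (by omega)]; exact h3)
          (by rw [st3_j1, st3_j2]; omega) (by rw [st3_j1]; exact e4)
        rw [st3_j1, st3_j2, up_j2] at this
        have e6 : (k + 1) * a = k * a + a := by ring
        rw [e6, ← Nat.sub_sub]
        exact this
    have r4 : Run B (.loop (j + 1) .skip) (st3 s j 0 a (f * a)) (st3 s j 0 0 (f * a)) := by
      have := run_clear (B := B) (i := j + 1) (st3 s j 0 a (f * a))
      rwa [up_j1] at this
    have r5 : Run B (.loop (j + 2) (.inc j)) (st3 s j 0 0 (f * a)) (st3 s j (f * a) 0 0) := by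
      have := run_addTo (B := B) (i := j + 2) (a := j) (by omega) (st3 s j 0 0 (f * a))
        (by rw [st3_j, st3_j2]; omega)
      rwa [st3_j, st3_j2, zero_add, up_j2, up_j] at this
    exact Run.seq r1 (Run.seq r2 (Run.seq r3 (Run.seq r4 r5)))
  | @bind F G hG hF ihG ihF =>
    obtain ⟨c, hc⟩ := ihF
    obtain ⟨d, hd⟩ := ihG
    obtain ⟨g, hg⟩ := growth hF
    obtain ⟨g', hg'⟩ := growth hG
    refine ⟨d + (g' + 2) * c + (g' + 2) * g, fun ρ j hρ => ?_⟩
    obtain ⟨Q, hQ⟩ := hd ρ j hρ
    obtain ⟨P, hP⟩ := hc (cons j ρ) (j + 1) (fun i => by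
      cases i with
      | zero => simp
      | succ i => have := hρ i; rw [cons_succ]; omega)
    refine ⟨.seq Q (.seq P (.seq (.loop j .skip) (.loop (j + 1) (.inc j)))),
      fun s B m h0 hm hB => ?_⟩
    show Run B _ s (Function.update s j (F (cons (G (fun i => s (ρ i))) (fun i => s (ρ i)))))
    have e2 := hg' _ m hm
    have r1 := hQ s B m h0 hm ((pow_mono' (by omega)).trans hB)
    generalize ha : G (fun i => s (ρ i)) = a at e2 r1 ⊢
    have hs1 : (fun i => st3 s j a 0 0 (cons j ρ i)) = cons a (fun i => s (ρ i)) := by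
      funext i
      cases i with
      | zero => exact st3_j _ _ _ _ _
      | succ i => exact st3_lt _ _ _ _ _ (hρ i)
    have hb : ∀ i, cons a (fun i => s (ρ i)) i ≤ (m + 2) ^ (g' + 1) := by
      intro i
      cases i with
      | zero => exact e2.trans (pow_mono' (by omega))
      | succ i => exact (hm i).trans (le_pow' m g')
    have e1 := (hg _ _ hb).trans ((pow_bound m g' g).trans ((pow_mono' (by omega)).trans hB))
    rw [up_eq _ _ _ h0] at r1 ⊢
    have r2 : Run B P (st3 s j a 0 0) (st3 s j a (F (cons a (fun i => s (ρ i)))) 0) := by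
      have := hP (st3 s j a 0 0) B ((m + 2) ^ (g' + 1)) ?_ ?_
        ((pow_bound m g' c).trans ((pow_mono' (by omega)).trans hB))
      · rw [hs1, up_j1] at this
        exact this
      · intro i hi
        unfold st3
        have := h0 i (by omega)
        split_ifs <;> first | rfl | omega
      · intro i
        exact (congrFun hs1 i).le.trans (hb i)
    generalize F (cons a (fun i => s (ρ i))) = f at e1 r2 ⊢
    have r3 : Run B (.loop j .skip) (st3 s j a f 0) (st3 s j 0 f 0) := by
      have := run_clear (B := B) (i := j) (st3 s j a f 0)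
      rwa [up_j] at this
    have r4 : Run B (.loop (j + 1) (.inc j)) (st3 s j 0 f 0) (st3 s j f 0 0) := by
      have := run_addTo (B := B) (i := j + 1) (a := j) (by omega) (st3 s j 0 f 0)
        (by rw [st3_j, st3_j1]; omega)
      rwa [st3_j, st3_j1, zero_add, up_j1, up_j] at this
    exact Run.seq r1 (Run.seq r2 (Run.seq r3 r4))
  | @ren F σ hF ih =>
    obtain ⟨c, hc⟩ := ih
    refine ⟨c, fun ρ j hρ => ?_⟩
    obtain ⟨P, hP⟩ := hc (fun i => ρ (σ i)) j (fun i => hρ (σ i))
    exact ⟨P, fun s B m h0 hm hB => hP s B m h0 (fun i => hm (σ i)) hB⟩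
  | @prec G H N C hG hH hN hC hb ihG ihH ihN ihC =>
    obtain ⟨cN, hcN⟩ := ihN
    obtain ⟨cG, hcG⟩ := ihG
    obtain ⟨cH, hcH⟩ := ihH
    obtain ⟨gN, hgN⟩ := growth hN
    obtain ⟨gC, hgC⟩ := growth hC
    refine ⟨cN + cG + (gN + gC + 2) * cH + gN + gC, fun ρ j hρ => ?_⟩
    obtain ⟨PN, hPN⟩ := hcN ρ j hρ
    obtain ⟨PG, hPG⟩ := hcG ρ (j + 1) (fun i => (hρ i).trans (by omega))
    obtain ⟨PH, hPH⟩ := hcH (cons (j + 2) (cons (j + 1) ρ)) (j + 3) (fun i => by
      match i with
      | 0 => simp
      | 1 => simp
      | i + 2 => have := hρ i; rw [cons_succ, cons_succ]; omega)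
    refine ⟨.seq PN (.seq PG (.seq (.loop j (.seq PH (.seq (.loop (j + 1) .skip)
      (.seq (.loop (j + 3) (.inc (j + 1))) (.inc (j + 2))))))
      (.seq (.loop (j + 2) .skip) (.loop (j + 1) (.inc j))))), fun s B m h0 hm hB => ?_⟩
    show Run B _ s (Function.update s j
      (recVal G H (fun i => s (ρ i)) (N (fun i => s (ρ i)))))
    have r1 := hPN s B m h0 hm ((pow_mono' (by omega)).trans hB)
    have e1 := hgN _ m hm
    have e2' := fun k hk => (hb (fun i => s (ρ i)) k hk).trans (hgC _ m hm)
    generalize he : (fun i => s (ρ i)) = e at e1 e2' r1 ⊢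
    generalize hn : N e = n at e1 e2' r1 ⊢
    have e2 : ∀ k ≤ n, recVal G H e k ≤ (m + 2) ^ gC := e2'
    have e3 : ∀ k ≤ n, recVal G H e k ≤ B := fun k hk =>
      (e2 k hk).trans ((pow_mono' (by omega)).trans hB)
    have e4 : n ≤ B := e1.trans ((pow_mono' (by omega)).trans hB)
    have hs1 : ∀ a b c, (fun i => st3 s j a b c (ρ i)) = e := by
      intro a b c
      rw [← he]
      funext i
      exact st3_lt _ _ _ _ _ (hρ i)
    have hme : ∀ i, e i ≤ m := by
      intro i
      rw [← he]
      exact hm i
    rw [up_eq _ _ _ h0] at r1 ⊢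
    have r2 : Run B PG (st3 s j n 0 0) (st3 s j n (recVal G H e 0) 0) := by
      have := hPG (st3 s j n 0 0) B m ?_ ?_ ((pow_mono' (by omega)).trans hB)
      · rw [hs1, up_j1] at this
        exact this
      · intro i hi
        unfold st3
        have := h0 i (by omega)
        split_ifs <;> first | rfl | omega
      · intro i
        rw [st3_lt _ _ _ _ _ (hρ i)]
        exact hm i
    have r3 : Run B (.loop j (.seq PH (.seq (.loop (j + 1) .skip)
        (.seq (.loop (j + 3) (.inc (j + 1))) (.inc (j + 2))))))
        (st3 s j n (recVal G H e 0) 0) (st3 s j 0 (recVal G H e n) n) := by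
      have key := run_loop (B := B) (p := .seq PH (.seq (.loop (j + 1) .skip)
        (.seq (.loop (j + 3) (.inc (j + 1))) (.inc (j + 2))))) (i := j) n
        (fun k => st3 s j (n - k) (recVal G H e k) k) ?_ ?_
      · simpa using key
      · intro k hk
        exact st3_j _ _ _ _ _
      · intro k hk
        simp only [up_j]
        have hs2 : (fun i => st3 s j (n - k - 1) (recVal G H e k) k
            (cons (j + 2) (cons (j + 1) ρ) i)) = cons k (cons (recVal G H e k) e) := by
          funext i
          match i with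
          | 0 => exact st3_j2 _ _ _ _ _
          | 1 => exact st3_j1 _ _ _ _ _
          | i + 2 =>
            simp only [cons_succ]
            rw [st3_lt _ _ _ _ _ (hρ i), ← he]
        have hb2 : ∀ i, cons k (cons (recVal G H e k) e) i ≤ (m + 2) ^ (gN + gC + 1) := by
          intro i
          match i with
          | 0 => exact (hk.le.trans e1).trans (pow_mono' (by omega))
          | 1 => exact (e2 k hk.le).trans (pow_mono' (by omega))
          | i + 2 => exact (hme i).trans (le_pow' m (gN + gC))
        have e5 := e3 (k + 1) hk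
        have q1 : Run B PH (st3 s j (n - k - 1) (recVal G H e k) k)
            (Function.update (st3 s j (n - k - 1) (recVal G H e k) k) (j + 3)
              (recVal G H e (k + 1))) := by
          have := hPH (st3 s j (n - k - 1) (recVal G H e k) k) B
            ((m + 2) ^ (gN + gC + 1)) ?_ ?_
            ((pow_bound m (gN + gC) cH).trans ((pow_mono' (by omega)).trans hB))
          · rw [hs2] at this
            exact this
          · intro i hi
            rw [st3_gt _ _ _ _ _ (by omega)]
            exact h0 i (by omega)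
          · intro i
            exact (congrFun hs2 i).le.trans (hb2 i)
        generalize recVal G H e (k + 1) = v at e5 q1 ⊢
        generalize recVal G H e k = u at q1 ⊢
        have h3 := h0 (j + 3) (by omega)
        have q2 : Run B (.loop (j + 1) .skip)
            (Function.update (st3 s j (n - k - 1) u k) (j + 3) v)
            (Function.update (st3 s j (n - k - 1) 0 k) (j + 3) v) := by
          have := run_clear (B := B) (i := j + 1)
            (Function.update (st3 s j (n - k - 1) u k) (j + 3) v)
          rwa [Function.update_comm (by omega), up_j1] at this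
        have q3 : Run B (.loop (j + 3) (.inc (j + 1)))
            (Function.update (st3 s j (n - k - 1) 0 k) (j + 3) v)
            (st3 s j (n - k - 1) v k) := by
          have := run_addTo (B := B) (i := j + 3) (a := j + 1) (by omega)
            (Function.update (st3 s j (n - k - 1) 0 k) (j + 3) v)
            (by rw [Function.update_self, Function.update_of_ne (by omega), st3_j1]; omega)
          rwa [Function.update_idem, Function.update_self, Function.update_of_ne (by omega),
            st3_j1, zero_add, up_j3 _ _ _ _ _ h3, up_j1] at this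
        have q4 : Run B (.inc (j + 2)) (st3 s j (n - k - 1) v k)
            (st3 s j (n - (k + 1)) v (k + 1)) := by
          have := Run.inc (B := B) (j + 2) (st3 s j (n - k - 1) v k)
            (by rw [st3_j2]; omega)
          rwa [st3_j2, up_j2, Nat.sub_sub] at this
        exact Run.seq q1 (Run.seq q2 (Run.seq q3 q4))
    have e6 := e3 n le_rfl
    generalize recVal G H e n = v at e6 r3 ⊢
    have r4 : Run B (.loop (j + 2) .skip) (st3 s j 0 v n) (st3 s j 0 v 0) := by
      have := run_clear (B := B) (i := j + 2) (st3 s j 0 v n)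
      rwa [up_j2] at this
    have r5 : Run B (.loop (j + 1) (.inc j)) (st3 s j 0 v 0) (st3 s j v 0 0) := by
      have := run_addTo (B := B) (i := j + 1) (a := j) (by omega) (st3 s j 0 v 0)
        (by rw [st3_j, st3_j1]; omega)
      rwa [st3_j, st3_j1, zero_add, up_j1, up_j] at this
    exact Run.seq r1 (Run.seq r2 (Run.seq r3 (Run.seq r4 r5)))

end Pool.Agent.Helper9.LinSpace
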